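import Pool.Agent.U84.SP.Tr

set_option autoImplicit false

/-!
# Comparison of the two functions
-/

open Set Topology Filter
open scoped ContDiff

namespace Pool.Agent.U438.SP

open Pool.Agent.Y184.SP Pool.Agent.U84.SP

theorem green_red {G h : ℂ → ℝ} {c : ℝ} (hG : IsGreen G h c) (x : ℂ) : G x = G (red x) := by
  have h1 := hG.per (red x) (x - red x) (sub_red x)
  rw [add_sub_cancel] at h1
  exact h1

theorem red_norm_lt (x : ℂ) : ‖red x‖ < 1 := by
  have h1 := abs_re_red x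
  have h2 := abs_im_red x
  have h3 : ‖red x‖ ^ 2 ≤ 1 / 2 := by
    rw [Complex.sq_norm, Complex.normSq_apply]
    have h4 := mul_self_le_mul_self (abs_nonneg _) h1
    have h5 := mul_self_le_mul_self (abs_nonneg _) h2
    rw [abs_mul_abs_self] at h4 h5
    linarith
  by_contra h6
  push Not at h6
  nlinarith

/-- the Green function minus its singularity is bounded -/
theorem green_bound {G h : ℂ → ℝ} {c : ℝ} (hG : IsGreen G h c) :
    ∃ M : ℝ, 0 ≤ M ∧ ∀ x, x ∉ Lam → |G x - chi x * Real.log (‖red x‖ ^ 2)| ≤ M := by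
  -- near the lattice
  have hc1 : ContinuousOn h (Metric.closedBall (0 : ℂ) (1 / 8)) := by
    intro x hx
    have hx' : ‖x‖ ≤ 1 / 8 := by simpa using hx
    exact ((hG.smooth_h x (by linarith)).continuousAt).continuousWithinAt
  obtain ⟨M1, hM1⟩ := (isCompact_closedBall (0 : ℂ) (1 / 8)).exists_bound_of_continuousOn hc1
  -- far from the lattice
  let S : Set ℂ := {r | 1 / 8 ≤ ‖r‖} ∩ Metric.closedBall (0 : ℂ) (3 / 4)
  have hS : IsCompact S := by
    refine (isCompact_closedBall (0 : ℂ) (3 / 4)).inter_left ?_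
    exact isClosed_le continuous_const continuous_norm
  have hc2 : ContinuousOn (fun r => G r - chi r * Real.log (‖r‖ ^ 2)) S := by
    intro r hr
    have h1 : 1 / 8 ≤ ‖r‖ := hr.1
    have h2 : ‖r‖ ≤ 3 / 4 := by simpa using hr.2
    have h0 : r ≠ 0 := by
      rintro rfl
      rw [norm_zero] at h1
      linarith
    have h3 : r ∉ Lam := notMem_Lam (by linarith) h0
    have h4 : ContinuousAt (fun r : ℂ => Real.log (‖r‖ ^ 2)) r := by
      apply ContinuousAt.log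
      · fun_prop
      · have := sq_pos_of_ne_zero (norm_ne_zero_iff.2 h0)
        exact this.ne'
    exact ((hG.smooth r h3).continuousAt.sub
      (chi_smooth.continuous.continuousAt.mul h4)).continuousWithinAt
  obtain ⟨M2, hM2⟩ := hS.exists_bound_of_continuousOn hc2
  refine ⟨max (max M1 M2) 0, le_max_right _ _, fun x hx => ?_⟩
  have hr0 := red_ne hx
  have hchi : chi x = chi (red x) := by
    have h1 := chi_per (red x) (sub_red x)
    rw [add_sub_cancel] at h1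
    exact h1
  rcases le_or_gt (‖red x‖) (1 / 8) with h8 | h8
  · rw [chi_one h8, one_mul, green_red hG x, hG.eq (red x) (by linarith) hr0, add_sub_cancel_left]
    have h1 := hM1 (red x) (by simpa using h8)
    rw [Real.norm_eq_abs] at h1
    exact h1.trans ((le_max_left _ _).trans (le_max_left _ _))
  · have h34 : ‖red x‖ ≤ 3 / 4 := by
      have h1 := abs_re_red x
      have h2 := abs_im_red x
      have h3 : ‖red x‖ ^ 2 ≤ 1 / 2 := by
        rw [Complex.sq_norm, Complex.normSq_apply]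
        have h4 := mul_self_le_mul_self (abs_nonneg _) h1
        have h5 := mul_self_le_mul_self (abs_nonneg _) h2
        rw [abs_mul_abs_self] at h4 h5
        linarith
      by_contra h6
      push Not at h6
      nlinarith
    have h1 := hM2 (red x) ⟨h8.le, by simpa using h34⟩
    rw [Real.norm_eq_abs] at h1
    rw [green_red hG x, hchi]
    exact h1.trans ((le_max_right _ _).trans (le_max_left _ _))

/-- the difference of the two functions -/
theorem near_far {G : ℂ → ℝ} (A k C : ℝ) (hk : 0 < k) {z : E} (hz : z ∈ W) :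
    near k C z - far G A z = chi z.1 * Real.log (‖z.2 - red z.1‖ ^ 2 + k * ‖red z.1‖ ^ 4)
      + (G z.1 - chi z.1 * Real.log (‖red z.1‖ ^ 2)) + C * ‖z.2‖ ^ 2
      - 5 / 2 * Real.log (‖z.2‖ ^ 2) - 1 / 2 * Real.log (1 + ‖z.2‖ ^ 2) - A := by
  have hr := red_ne hz.1
  have hr1 := norm_pos_iff.2 hr
  unfold near far
  have h1 : ‖z.2 / red z.1 - 1‖ ^ 2 + k * ‖red z.1‖ ^ 2 =
      (‖z.2 - red z.1‖ ^ 2 + k * ‖red z.1‖ ^ 4) / ‖red z.1‖ ^ 2 := by
    have h2 : z.2 / red z.1 - 1 = (z.2 - red z.1) / red z.1 := by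
      field_simp
    rw [h2, norm_div]
    field_simp
  rw [h1, Real.log_div (by positivity) (by positivity)]
  ring

theorem low_bd {k : ℝ} (hk : 0 < k) (hk1 : k ≤ 1) {y r : ℂ} (hy : ‖y‖ ≤ 1) :
    k / 16 * ‖y‖ ^ 4 ≤ ‖y - r‖ ^ 2 + k * ‖r‖ ^ 4 := by
  have hy0 := norm_nonneg y
  have hr0 := norm_nonneg r
  have hyr0 := norm_nonneg (y - r)
  rcases le_or_gt (‖y‖ / 2) (‖r‖) with h | h
  · have h1 : (‖y‖ / 2) ^ 4 ≤ ‖r‖ ^ 4 := pow_le_pow_left₀ (by positivity) h 4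
    have h2 : k * (‖y‖ / 2) ^ 4 ≤ k * ‖r‖ ^ 4 := mul_le_mul_of_nonneg_left h1 hk.le
    have h3 : 0 ≤ ‖y - r‖ ^ 2 := by positivity
    have h4 : k * (‖y‖ / 2) ^ 4 = k / 16 * ‖y‖ ^ 4 := by ring
    linarith
  · have h1 : ‖y‖ ≤ ‖y - r‖ + ‖r‖ := by
      have := norm_add_le (y - r) r
      rwa [sub_add_cancel] at this
    have h2 : ‖y‖ / 2 ≤ ‖y - r‖ := by linarith
    have h3 : (‖y‖ / 2) ^ 2 ≤ ‖y - r‖ ^ 2 := pow_le_pow_left₀ (by positivity) h2 2
    have h4 : 0 ≤ k * ‖r‖ ^ 4 := by positivity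
    have h5 : ‖y‖ ^ 4 ≤ ‖y‖ ^ 2 := pow_le_pow_of_le_one hy0 hy (by norm_num)
    have h6 : k / 16 * ‖y‖ ^ 4 ≤ 1 / 16 * ‖y‖ ^ 2 := by
      apply mul_le_mul (by linarith) h5 (by positivity) (by norm_num)
    have h7 : 0 ≤ ‖y‖ ^ 2 := by positivity
    have h8 : (‖y‖ / 2) ^ 2 = 1 / 4 * ‖y‖ ^ 2 := by ring
    linarith

theorem t_Comp : StComp := by
  intro G h c hG k C η hk hk1 hC hη
  obtain ⟨M, hM0, hM⟩ := green_bound hG
  set η2 := η / 2 with hη2
  have hη2p : 0 < η2 := by positivity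
  set D : ℝ := (η + 1) ^ 2 + 1 with hD
  have hD1 : 1 ≤ D := by
    have : 0 ≤ (η + 1) ^ 2 := by positivity
    linarith
  set A : ℝ := 1 + Real.log D + C * η ^ 2 - 5 / 2 * Real.log (η2 ^ 2) + M with hA
  -- the number `η1`
  obtain ⟨η1, h1p, h1lt, h1le, h1b⟩ : ∃ η1 : ℝ, 0 < η1 ∧ η1 < η2 ∧ η1 ≤ 1 ∧
      1 + A + M + 1 / 2 * Real.log 2 - Real.log (k / 16) ≤ - (1 / 2 * Real.log (η1 ^ 2)) := by
    have ht : Tendsto (fun t : ℝ => -Real.log t) (𝓝[>] 0) atTop :=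
      tendsto_neg_atBot_atTop.comp Real.tendsto_log_nhdsGT_zero
    have h1 := ht.eventually_ge_atTop (1 + A + M + 1 / 2 * Real.log 2 - Real.log (k / 16))
    have h2 : ∀ᶠ t : ℝ in 𝓝[>] 0, t < η2 := nhdsWithin_le_nhds (gt_mem_nhds hη2p)
    have h3 : ∀ᶠ t : ℝ in 𝓝[>] 0, t < 1 := nhdsWithin_le_nhds (gt_mem_nhds one_pos)
    obtain ⟨t, ⟨⟨ht1, ht2⟩, ht3⟩, ht4⟩ :=
      (((h1.and h2).and h3).and (self_mem_nhdsWithin : ∀ᶠ t : ℝ in 𝓝[>] 0, 0 < t)).exists
    refine ⟨t, ht4, ht2, ht3.le, ?_⟩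
    rw [Real.log_pow]
    push_cast
    linarith
  refine ⟨A, η1, η2, h1p, h1lt, by rw [hη2]; linarith, ?_, ?_⟩
  · intro z hz hy
    have hy0 : 0 < ‖z.2‖ := norm_pos_iff.2 hz.2
    have hy1 : ‖z.2‖ ≤ 1 := hy.trans h1le
    have e := near_far (G := G) A k C hk hz
    have hg := (abs_le.1 (hM z.1 hz.1)).1
    have hlow := low_bd hk hk1 (r := red z.1) hy1
    have hpos : 0 < k / 16 * ‖z.2‖ ^ 4 := by positivity
    have hl1 : Real.log (k / 16 * ‖z.2‖ ^ 4) ≤
        Real.log (‖z.2 - red z.1‖ ^ 2 + k * ‖red z.1‖ ^ 4) := Real.log_le_log hpos hlow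
    have hl2 : Real.log (k / 16 * ‖z.2‖ ^ 4) = Real.log (k / 16) + 2 * Real.log (‖z.2‖ ^ 2) := by
      rw [Real.log_mul (by positivity) (by positivity), Real.log_pow, Real.log_pow]
      push_cast
      ring
    have hl3 : Real.log (k / 16 * ‖z.2‖ ^ 4) ≤ 0 := by
      apply Real.log_nonpos hpos.le
      have h5 : ‖z.2‖ ^ 4 ≤ 1 := pow_le_one₀ hy0.le hy1
      have h6 : 0 ≤ ‖z.2‖ ^ 4 := by positivity
      nlinarith
    have hchi0 := chi_nonneg z.1
    have hchi1 := chi_le_one z.1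
    have hl4 : Real.log (k / 16) + 2 * Real.log (‖z.2‖ ^ 2) ≤
        chi z.1 * Real.log (‖z.2 - red z.1‖ ^ 2 + k * ‖red z.1‖ ^ 4) := by
      rw [← hl2]
      have h7 : chi z.1 * Real.log (k / 16 * ‖z.2‖ ^ 4) ≤
        chi z.1 * Real.log (‖z.2 - red z.1‖ ^ 2 + k * ‖red z.1‖ ^ 4) :=
          mul_le_mul_of_nonneg_left hl1 hchi0
      nlinarith
    have hl5 : Real.log (‖z.2‖ ^ 2) ≤ Real.log (η1 ^ 2) :=
      Real.log_le_log (by positivity) (pow_le_pow_left₀ hy0.le hy 2)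
    have hl6 : Real.log (1 + ‖z.2‖ ^ 2) ≤ Real.log 2 := by
      apply Real.log_le_log (by positivity)
      have : ‖z.2‖ ^ 2 ≤ 1 := pow_le_one₀ hy0.le hy1
      linarith
    have hl7 : 0 ≤ C * ‖z.2‖ ^ 2 := by positivity
    linarith
  · intro z hz hy hy'
    have hy0 : 0 < ‖z.2‖ := norm_pos_iff.2 hz.2
    have e := near_far (G := G) A k C hk hz
    have hg := (abs_le.1 (hM z.1 hz.1)).2
    have hr := red_norm_lt z.1
    have hr0 := norm_nonneg (red z.1)
    have hup : ‖z.2 - red z.1‖ ^ 2 + k * ‖red z.1‖ ^ 4 ≤ D := by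
      have h1 : ‖z.2 - red z.1‖ ≤ η + 1 := (norm_sub_le _ _).trans (by linarith)
      have h2 : ‖z.2 - red z.1‖ ^ 2 ≤ (η + 1) ^ 2 := pow_le_pow_left₀ (norm_nonneg _) h1 2
      have h3 : ‖red z.1‖ ^ 4 ≤ 1 := pow_le_one₀ hr0 hr.le
      have h4 : k * ‖red z.1‖ ^ 4 ≤ 1 * 1 := mul_le_mul hk1 h3 (by positivity) (by norm_num)
      linarith
    have hpos : 0 < ‖z.2 - red z.1‖ ^ 2 + k * ‖red z.1‖ ^ 4 := by
      have := norm_pos_iff.2 (red_ne hz.1)
      positivity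
    have hl1 : Real.log (‖z.2 - red z.1‖ ^ 2 + k * ‖red z.1‖ ^ 4) ≤ Real.log D :=
      Real.log_le_log hpos hup
    have hlD : 0 ≤ Real.log D := Real.log_nonneg hD1
    have hchi0 := chi_nonneg z.1
    have hchi1 := chi_le_one z.1
    have hl4 : chi z.1 * Real.log (‖z.2 - red z.1‖ ^ 2 + k * ‖red z.1‖ ^ 4) ≤ Real.log D := by
      have h7 := mul_le_mul_of_nonneg_left hl1 hchi0
      nlinarith
    have hl5 : Real.log (η2 ^ 2) ≤ Real.log (‖z.2‖ ^ 2) :=
      Real.log_le_log (by positivity) (pow_le_pow_left₀ hη2p.le hy 2)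
    have hl6 : 0 ≤ Real.log (1 + ‖z.2‖ ^ 2) := by
      apply Real.log_nonneg
      have : 0 ≤ ‖z.2‖ ^ 2 := by positivity
      linarith
    have hl7 : C * ‖z.2‖ ^ 2 ≤ C * η ^ 2 :=
      mul_le_mul_of_nonneg_left (pow_le_pow_left₀ hy0.le hy' 2) hC
    linarith

end Pool.Agent.U438.SP
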