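import Pool.Agent.U84.SP.Phi2
import Pool.Agent.U438.SP.Comp

set_option autoImplicit false

/-!
# The class `α` is big
-/

open Set Topology Filter
open scoped ContDiff

namespace Pool.Agent.U438.SP

open Pool.Agent.Y184.SP Pool.Agent.U84.SP

/-- the Levi form of a function of one variable -/
theorem lv_one {g : ℂ → ℝ} {x : ℂ} (v : ℂ) (hg : ContDiffAt ℝ 2 g x) :
    lv g x v = ‖v‖ ^ 2 * Laplacian.laplacian g x := by
  have h1 := lv_hom v (1 : ℂ) hg
  rw [smul_eq_mul, mul_one] at h1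
  rw [h1, lv_eq (1 : ℂ) hg, lap_def, iteratedFDeriv_two_apply, iteratedFDeriv_two_apply]
  simp

theorem lv_fst {g : ℂ → ℝ} {z : E} (v : E) (hg : ContDiffAt ℝ 2 g z.1) :
    lv (fun t : E => g t.1) z v = ‖v.1‖ ^ 2 * Laplacian.laplacian g z.1 := by
  have h1 := lv_comp (V := E) (V' := ℂ) (ρ := g) (g := fun t : E => t.1) (z := z) (v := v)
    contDiffAt_fst hg
  rw [h1, lv_one _ hg]
  have h2 : fderiv ℂ (fun t : E => t.1) z v = v.1 := by
    rw [fderiv_fst]
    rfl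
  rw [h2]

/-- the Levi form of the Green function -/
theorem lv_green {G h : ℂ → ℝ} {c : ℝ} (hG : IsGreen G h c) {z : E} (hz : z.1 ∉ Lam) (v : E) :
    lv (fun t : E => G t.1) z v = -(c * ‖v.1‖ ^ 2) := by
  rw [lv_fst v ((hG.smooth _ hz).of_le two_le), hG.lap _ hz]
  ring

theorem green_cd {G h : ℂ → ℝ} {c : ℝ} (hG : IsGreen G h c) {n : WithTop ℕ∞} (hn : n ≤ ∞)
    {z : E} (hz : z.1 ∉ Lam) : ContDiffAt ℝ n (fun t : E => G t.1) z :=
  ((hG.smooth _ hz).of_le hn).comp z contDiffAt_fst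

theorem num1_pos {y r : ℂ} (h : y ≠ 0 ∨ r ≠ 0) : 0 < ‖r‖ ^ 2 + ‖y - r‖ ^ 2 := by
  by_cases hr : r = 0
  · have := sq_pos (h.resolve_right (fun h => h hr))
    simp [hr]
    exact this
  · have := norm_pos_iff.2 hr
    positivity

/-- `L₁` is smooth -/
theorem L1_cd {n : WithTop ℕ∞} {z : E} (h : ‖red z.1‖ < 1 / 2) (h2 : z.2 ≠ 0 ∨ red z.1 ≠ 0) :
    ContDiffAt ℝ n L1 z := by
  have hr := red_cdR (n := n) h
  have h3 := num1_pos h2
  unfold L1
  refine ContDiffAt.log (ContDiffAt.div ?_ ?_ (by positivity)) (by positivity)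
  · exact (hr.norm_sq ℝ).add ((contDiffAt_snd.sub hr).norm_sq ℝ)
  · exact contDiffAt_const.add (contDiffAt_snd.norm_sq ℝ)

/-- the function `log ((|r y'|² + |1 - r y'|²) / (1 + |y'|²))` -/
noncomputable def L1' (z : E) : ℝ :=
  Real.log ((‖red z.1 * z.2‖ ^ 2 + ‖1 - red z.1 * z.2‖ ^ 2) / (1 + ‖z.2‖ ^ 2))

theorem num1'_pos (a : ℂ) : 0 < ‖a‖ ^ 2 + ‖1 - a‖ ^ 2 := by
  by_cases h : a = 0
  · rw [h, sub_zero, norm_one]
    positivity
  · have := norm_pos_iff.2 h
    positivity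

theorem L1'_cd {n : WithTop ℕ∞} {z : E} (h : ‖red z.1‖ < 1 / 2) : ContDiffAt ℝ n L1' z := by
  have hr := red_cdR (n := n) h
  have h3 := num1'_pos (red z.1 * z.2)
  unfold L1'
  refine ContDiffAt.log (ContDiffAt.div ?_ ?_ (by positivity)) (by positivity)
  · exact ((hr.mul contDiffAt_snd).norm_sq ℝ).add
      ((contDiffAt_const.sub (hr.mul contDiffAt_snd)).norm_sq ℝ)
  · exact contDiffAt_const.add (contDiffAt_snd.norm_sq ℝ)

theorem L1_inv {z : E} (h : z.2 ≠ 0) : L1 (tr 1 z) = L1' z := by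
  have e : tr 1 z = (z.1, z.2⁻¹) := rfl
  have h1 := sq_pos h
  unfold L1 L1'
  rw [e]
  congr 1
  have h2 : ‖z.2⁻¹ - red z.1‖ ^ 2 = ‖1 - red z.1 * z.2‖ ^ 2 / ‖z.2‖ ^ 2 := by
    rw [← div_pow, ← norm_div]
    congr 2
    field_simp
  show (‖red z.1‖ ^ 2 + ‖z.2⁻¹ - red z.1‖ ^ 2) / (1 + ‖z.2⁻¹‖ ^ 2) = _
  rw [h2, norm_inv, inv_pow, norm_mul]
  field_simp
  ring

/-- the smooth part of the Green function -/
noncomputable def gt (G h : ℂ → ℝ) (x : ℂ) : ℝ :=
  open scoped Classical in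
  if x ∈ Lam then h 0 else G x - chi x * Real.log (‖red x‖ ^ 2)

theorem gt_of {G h : ℂ → ℝ} {x : ℂ} (hx : x ∉ Lam) :
    gt G h x = G x - chi x * Real.log (‖red x‖ ^ 2) := by
  unfold gt
  rw [if_neg hx]

theorem gt_cd {G h : ℂ → ℝ} {c : ℝ} (hG : IsGreen G h c) (x : ℂ) : ContDiffAt ℝ ∞ (gt G h) x := by
  by_cases hx : x ∈ Lam
  · have h1 : ContDiffAt ℝ ∞ (fun y : ℂ => h (y - x)) x := by
      have h2 : ContDiffAt ℝ ∞ h (x - x) := hG.smooth_h _ (by simp)
      exact ContDiffAt.comp (g := h) (f := fun y : ℂ => y - x) x h2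
        (contDiffAt_id.sub contDiffAt_const)
    refine h1.congr_of_eventuallyEq ?_
    have h2 : ∀ᶠ y in 𝓝 x, ‖y - x‖ < 1 / 8 := by
      have hc : ContinuousAt (fun y : ℂ => ‖y - x‖) x := by fun_prop
      apply hc.eventually_lt continuousAt_const
      simp
    filter_upwards [h2] with y hy
    by_cases hy0 : y = x
    · rw [hy0, sub_self]
      unfold gt
      rw [if_pos hx]
    · have h3 : y - x ≠ 0 := sub_ne_zero.2 hy0
      have h4 : y ∉ Lam := fun h5 => h3 (Lam_norm (Lam_sub h5 hx) (by linarith))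
      have h5 : red y = y - x := red_near hx (by linarith)
      rw [gt_of h4, chi_one (by rw [h5]; exact hy.le), green_red hG y, h5,
        hG.eq _ (by linarith) h3]
      ring
  · have h1 : ContDiffAt ℝ ∞ (fun y : ℂ => G y - chi y * Real.log (‖red y‖ ^ 2)) x := by
      refine (hG.smooth x hx).sub ?_
      rcases lt_or_ge (‖red x‖) (3 / 8) with h1 | h1
      · have h2 : (fun y : ℂ => chi y * Real.log (‖red y‖ ^ 2)) =ᶠ[𝓝 x]
            fun y : ℂ => chi y * Real.log (‖y - (x - red x)‖ ^ 2) := by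
          filter_upwards [red_ev (x := x) (by linarith)] with y hy
          rw [hy]
        refine ContDiffAt.congr_of_eventuallyEq ?_ h2
        refine chi_smooth.contDiffAt.mul (ContDiffAt.log ?_ ?_)
        · exact (contDiffAt_id.sub contDiffAt_const).norm_sq ℝ
        · have h3 := sq_pos (red_ne hx)
          have h4 : x - (x - red x) = red x := by ring
          rw [h4]
          exact h3.ne'
      · have h2 : ∀ᶠ y in 𝓝 x, 1 / 4 < ‖red y‖ := by
          apply (continuousAt_const).eventually_lt norm_red_cont.continuousAt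
          linarith
        refine (contDiffAt_const (c := (0 : ℝ))).congr_of_eventuallyEq ?_
        filter_upwards [h2] with y hy
        rw [chi_zero hy.le, zero_mul]
    refine h1.congr_of_eventuallyEq ?_
    filter_upwards [Lam_closed.isOpen_compl.mem_nhds hx] with y hy
    exact gt_of hy

/-- the function `U` -/
noncomputable def UB (G : ℂ → ℝ) (δ : ℝ) (z : E) : ℝ :=
  -G z.1 + 1 / 2 * Real.log (1 + ‖z.2‖ ^ 2) + 5 / 2 * Real.log (‖z.2‖ ^ 2) +
    δ * (chi z.1 * (L1 z + L2 z))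

/-- the difference `U - Φ` -/
noncomputable def FB (G h : ℂ → ℝ) (δ : ℝ) (z : E) : ℝ :=
  -gt G h z.1 + 5 / 2 * (Real.log (‖z.2‖ ^ 2) - Real.log (1 + ‖z.2‖ ^ 2)) +
    chi z.1 * (δ * L1 z - (1 - δ) * L2 z)

theorem UB_sub {G h : ℂ → ℝ} {δ : ℝ} {z : E} (hz : z ∈ W) :
    UB G δ z - Phi z = FB G h δ z := by
  unfold UB FB Phi
  rw [gt_of hz.1]
  ring

theorem FB_cd {G h : ℂ → ℝ} {c : ℝ} (hG : IsGreen G h c) {δ : ℝ} {z : E} (hz : z.2 ≠ 0) :
    ContDiffAt ℝ ∞ (FB G h δ) z := by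
  unfold FB
  refine (((gt_cd hG z.1).comp z contDiffAt_fst).neg.add (contDiffAt_const.mul
    ((cd_log_snd hz).sub (cd_log_1 contDiffAt_snd)))).add (chi_mul_cd le_rfl fun h1 => ?_)
  exact (contDiffAt_const.mul (L1_cd (by linarith) (Or.inl hz))).sub
    (contDiffAt_const.mul (L2_cd (by linarith) (Or.inl hz)))

/-- the difference `U - Φ` in the second coordinate system -/
noncomputable def FB' (G h : ℂ → ℝ) (δ : ℝ) (z : E) : ℝ :=
  -gt G h z.1 - 5 / 2 * Real.log (1 + ‖z.2‖ ^ 2) + chi z.1 * (δ * L1' z - (1 - δ) * L2' z)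

theorem FB'_cd {G h : ℂ → ℝ} {c : ℝ} (hG : IsGreen G h c) {δ : ℝ} {z : E} :
    ContDiffAt ℝ ∞ (FB' G h δ) z := by
  unfold FB'
  refine (((gt_cd hG z.1).comp z contDiffAt_fst).neg.sub (contDiffAt_const.mul
    (cd_log_1 contDiffAt_snd))).add (chi_mul_cd le_rfl fun h1 => ?_)
  exact (contDiffAt_const.mul (L1'_cd (by linarith))).sub
    (contDiffAt_const.mul (L2'_cd (by linarith)))

theorem FB'_eq {G h : ℂ → ℝ} {δ : ℝ} {z : E} (hz : z.2 ≠ 0) :
    FB G h δ (tr 1 z) = FB' G h δ z := by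
  unfold FB FB'
  rw [L1_inv hz, L2_inv hz]
  have e : tr 1 z = (z.1, z.2⁻¹) := rfl
  rw [e]
  simp only []
  rw [log_inv_1 hz, norm_inv, inv_pow, Real.log_inv]
  ring

/-- the upper bound near the curves -/
theorem FB_le {G h : ℂ → ℝ} {M : ℝ}
    (hM : ∀ x, x ∉ Lam → |G x - chi x * Real.log (‖red x‖ ^ 2)| ≤ M) {δ : ℝ} (hδ : 0 < δ)
    (hδ1 : δ ≤ 1) {z : E} (hz : z ∈ W) (hy : ‖z.2‖ ≤ 1) :
    FB G h δ z ≤ (M + Real.log 5 + Real.log 32) + (1 / 2 + 2 * δ) * Real.log (‖z.2‖ ^ 2) := by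
  have hy0 : 0 < ‖z.2‖ := norm_pos_iff.2 hz.2
  have hr := red_norm_lt z.1
  have hr0 := norm_nonneg (red z.1)
  have hg : -gt G h z.1 ≤ M := by
    rw [gt_of hz.1]
    have := (abs_le.1 (hM z.1 hz.1)).1
    linarith
  have hchi0 := chi_nonneg z.1
  have hchi1 := chi_le_one z.1
  have hl1p : 0 ≤ Real.log (1 + ‖z.2‖ ^ 2) := by
    apply Real.log_nonneg
    have : 0 ≤ ‖z.2‖ ^ 2 := by positivity
    linarith
  have hl5 : 0 ≤ Real.log 5 := Real.log_nonneg (by norm_num)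
  have h1 : L1 z ≤ Real.log 5 := by
    unfold L1
    have hp := num1_pos (y := z.2) (r := red z.1) (Or.inl hz.2)
    apply Real.log_le_log (by positivity)
    rw [div_le_iff₀ (by positivity)]
    have h2 : ‖z.2 - red z.1‖ ≤ 2 := (norm_sub_le _ _).trans (by linarith)
    have h3 : ‖z.2 - red z.1‖ ^ 2 ≤ 2 ^ 2 := pow_le_pow_left₀ (norm_nonneg _) h2 2
    have h4 : ‖red z.1‖ ^ 2 ≤ 1 := pow_le_one₀ hr0 hr.le
    have h5 : 0 ≤ ‖z.2‖ ^ 2 := by positivity
    nlinarith
  have h2 : -L2 z ≤ Real.log 32 - 2 * Real.log (‖z.2‖ ^ 2) := by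
    unfold L2
    have hp := num2_pos (y := z.2) (r := red z.1) (Or.inl hz.2)
    rw [Real.log_div (by positivity) (by positivity)]
    have h3 := low_bd (k := 1) one_pos le_rfl (r := red z.1) hy
    rw [one_mul] at h3
    have h4 : Real.log (1 / 16 * ‖z.2‖ ^ 4) ≤ Real.log (‖z.2 - red z.1‖ ^ 2 + ‖red z.1‖ ^ 4) :=
      Real.log_le_log (by positivity) h3
    have h5 : Real.log (1 / 16 * ‖z.2‖ ^ 4) = -Real.log 16 + 2 * Real.log (‖z.2‖ ^ 2) := by
      rw [Real.log_mul (by positivity) (by positivity), Real.log_pow, Real.log_pow,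
        Real.log_div (by norm_num) (by norm_num), Real.log_one]
      push_cast
      ring
    have h6 : Real.log (1 + ‖z.2‖ ^ 2) ≤ Real.log 2 := by
      apply Real.log_le_log (by positivity)
      have : ‖z.2‖ ^ 2 ≤ 1 := pow_le_one₀ hy0.le hy
      linarith
    have h7 : Real.log 32 = Real.log 2 + Real.log 16 := by
      rw [← Real.log_mul (by norm_num) (by norm_num)]
      norm_num
    linarith
  have hyl : Real.log (‖z.2‖ ^ 2) ≤ 0 :=
    Real.log_nonpos (by positivity) (pow_le_one₀ hy0.le hy)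
  have hl32 : 0 ≤ Real.log 32 := Real.log_nonneg (by norm_num)
  have h3 : chi z.1 * (δ * L1 z) ≤ Real.log 5 := by
    have h4 : δ * L1 z ≤ δ * Real.log 5 := mul_le_mul_of_nonneg_left h1 hδ.le
    have h5 : δ * Real.log 5 ≤ Real.log 5 := by nlinarith
    have h6 : δ * L1 z ≤ Real.log 5 := h4.trans h5
    have h7 := mul_le_mul_of_nonneg_left h6 hchi0
    nlinarith
  have h4 : chi z.1 * ((1 - δ) * (-L2 z)) ≤ Real.log 32 - 2 * (1 - δ) * Real.log (‖z.2‖ ^ 2) := by
    have h5 : (1 - δ) * (-L2 z) ≤ (1 - δ) * (Real.log 32 - 2 * Real.log (‖z.2‖ ^ 2)) :=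
      mul_le_mul_of_nonneg_left h2 (by linarith)
    have h6 : 0 ≤ (1 - δ) * (Real.log 32 - 2 * Real.log (‖z.2‖ ^ 2)) :=
      mul_nonneg (by linarith) (by linarith)
    have h7 := mul_le_mul_of_nonneg_left h5 hchi0
    have h8 : chi z.1 * ((1 - δ) * (Real.log 32 - 2 * Real.log (‖z.2‖ ^ 2))) ≤
        1 * ((1 - δ) * (Real.log 32 - 2 * Real.log (‖z.2‖ ^ 2))) :=
      mul_le_mul_of_nonneg_right hchi1 h6
    nlinarith
  unfold FB
  have e : chi z.1 * (δ * L1 z - (1 - δ) * L2 z) =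
      chi z.1 * (δ * L1 z) + chi z.1 * ((1 - δ) * (-L2 z)) := by ring
  rw [e]
  nlinarith

theorem psi_cd {G h : ℂ → ℝ} {c : ℝ} (hG : IsGreen G h c) (K : ℝ) {n : WithTop ℕ∞} (hn : n ≤ ∞)
    {z : E} (hz : z ∈ W) : ContDiffAt ℝ n (Psi G K) z := by
  unfold Psi
  have hr := red_ne hz.1
  refine ((contDiffAt_const.mul (green_cd hG hn hz.1)).neg.add (contDiffAt_const.mul
    (cd_log_1 contDiffAt_snd))).add (chi_mul_cd hn fun h1 => ?_)
  exact (L1_cd (by linarith) (Or.inr hr)).add (L2_cd (by linarith) (Or.inr hr))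

theorem t_Big : StBig := by
  intro G h c hG K hK
  obtain ⟨M, hM0, hM⟩ := green_bound hG
  set δ : ℝ := 1 / (2 * (K + 1)) with hδ
  have hδ0 : 0 < δ := by positivity
  have hδK : δ * K ≤ 1 / 2 := by
    rw [hδ, div_mul_eq_mul_div, one_mul, div_le_iff₀ (by positivity)]
    linarith
  have hδ1 : δ ≤ 1 := by
    rw [hδ, div_le_iff₀ (by positivity)]
    linarith
  refine ⟨δ, UB G δ, hδ0, ?_, ?_, ?_, ?_⟩
  · intro x y l hl
    unfold UB L1 L2
    simp only [red_add x hl, chi_per x hl, hG.per x l hl]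
  · intro z hz v
    have hP := psi_cd hG K two_le hz
    have hGc := green_cd hG two_le hz.1
    have hl1 : ContDiffAt ℝ 2 (fun t : E => Real.log (1 + ‖t.2‖ ^ 2)) z := cd_log_1 contDiffAt_snd
    have hl2 : ContDiffAt ℝ 2 (fun t : E => Real.log (‖t.2‖ ^ 2)) z := cd_log_snd hz.2
    have e : UB G δ = fun t : E => δ * Psi G K t +
        (-(1 - δ * K) * G t.1 + (5 / 2 * Real.log (‖t.2‖ ^ 2) +
          (1 / 2 - δ * K) * Real.log (1 + ‖t.2‖ ^ 2))) := by
      funext t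
      unfold UB Psi
      ring
    rw [lev_lv, e, lv_add v (contDiffAt_const.mul hP) ((contDiffAt_const.mul hGc).add
      ((contDiffAt_const.mul hl2).add (contDiffAt_const.mul hl1))),
      lv_add v (contDiffAt_const.mul hGc) ((contDiffAt_const.mul hl2).add
        (contDiffAt_const.mul hl1)),
      lv_add v (contDiffAt_const.mul hl2) (contDiffAt_const.mul hl1), lv_smul v _ hP,
      lv_smul v _ hGc, lv_smul v _ hl2, lv_smul v _ hl1, lv_log_snd v hz.2, lv_green hG hz.1 v,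
      lv_log_1 v contDiffAt_snd]
    have h1 : 0 ≤ (1 / 2 - δ * K) *
        (4 * ‖fderiv ℂ (fun t : E => t.2) z v‖ ^ 2 / (1 + ‖z.2‖ ^ 2) ^ 2) :=
      mul_nonneg (by linarith) (by positivity)
    have h2 : 0 ≤ (1 - δ * K) * (c * ‖v.1‖ ^ 2) :=
      mul_nonneg (by linarith) (mul_nonneg hG.pos.le (by positivity))
    linarith
  · intro j z hz hA
    by_cases hj : j = 1
    · subst hj
      refine ⟨FB' G h δ, Eventually.of_forall fun _ => FB'_cd hG, ?_⟩
      filter_upwards with z' hW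
      have hz2 : z'.2 ≠ 0 := (W_ne hW).resolve_left (by simp)
      rw [UB_sub (h := h) hW, FB'_eq hz2]
    · have h2 : (tr j z).2 ≠ 0 := fun h3 => hA ⟨hj, h3⟩
      refine ⟨fun t => FB G h δ (tr j t), ?_, ?_⟩
      · have hc : ContinuousAt (fun t : E => (tr j t).2) z :=
          continuousAt_snd.comp (tr_cd (Or.inl hj)).continuousAt
        filter_upwards [hc.eventually_ne h2] with z' hz'
        have h3 : ContDiffAt ℝ ∞ (FB G h δ) (tr j z') := FB_cd hG hz'
        exact h3.comp z' (omega_real (tr_cd (Or.inl hj)))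
      · filter_upwards with z' hW
        rw [UB_sub (h := h) hW]
  · intro j z hz hA
    have hc : ContinuousAt (fun t : E => (tr j t).2) z :=
      continuousAt_snd.comp (tr_cd (Or.inl hA.1)).continuousAt
    have h1 : Tendsto (fun t : E => ‖(tr j t).2‖) (𝓝[{z' | tr j z' ∈ W}] z) (𝓝[>] 0) := by
      apply tendsto_nhdsWithin_of_tendsto_nhds_of_eventually_within
      · have h2 : Tendsto (fun t : E => ‖(tr j t).2‖) (𝓝 z) (𝓝 ‖(tr j z).2‖) := hc.norm
        rw [hA.2, norm_zero] at h2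
        exact h2.mono_left nhdsWithin_le_nhds
      · filter_upwards [self_mem_nhdsWithin] with t ht
        exact norm_pos_iff.2 ht.2
    have h2 : Tendsto (fun t : E => (M + Real.log 5 + Real.log 32) +
        (1 / 2 + 2 * δ) * Real.log (‖(tr j t).2‖ ^ 2)) (𝓝[{z' | tr j z' ∈ W}] z) atBot := by
      apply tendsto_atBot_add_const_left
      apply Tendsto.const_mul_atBot (by positivity)
      have h3 : Tendsto (fun s : ℝ => Real.log (s ^ 2)) (𝓝[>] 0) atBot := by
        have h4 : Tendsto (fun s : ℝ => 2 * Real.log s) (𝓝[>] 0) atBot :=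
          Tendsto.const_mul_atBot (by norm_num) Real.tendsto_log_nhdsGT_zero
        refine h4.congr fun s => ?_
        rw [Real.log_pow]
        push_cast
        ring
      exact h3.comp h1
    have h3 : ∀ᶠ t in 𝓝[{z' | tr j z' ∈ W}] z, ‖(tr j t).2‖ ≤ 1 := by
      have h4 : ∀ᶠ s : ℝ in 𝓝[>] 0, s < 1 := nhdsWithin_le_nhds (gt_mem_nhds one_pos)
      exact (h1.eventually h4).mono fun t ht => ht.le
    refine tendsto_atBot_mono' _ ?_ h2
    filter_upwards [h3, self_mem_nhdsWithin] with t ht hW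
    rw [UB_sub (h := h) hW]
    exact FB_le hM hδ0 hδ1 hW ht

end Pool.Agent.U438.SP
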